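import Pool.Agent.C1G.Fac
import Pool.Agent.SimN.L1Geo
import Pool.Agent.C1H.TruncB
import Pool.Agent.C1N.Db
import Pool.Agent.SpF.Par
import Pool.Agent.C1B.Ind
import Pool.Agent.DCone.ConeBody

set_option autoImplicit false

open scoped BigOperators

namespace Pool.Agent.Results.MP_c1e66d_co.Products

/-- The homothet `x + c K` of `K`. -/
def homothet {V : Type} [NormedAddCommGroup V] [NormedSpace ℝ V] (K : Set V) (c : ℝ) (x : V) :
    Set V := (fun y => x + c • y) '' K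

/-- The sets `x i + c i K` (`i < n`) are positive homothets of `K` which meet pairwise. -/
def Intersecting {V : Type} [NormedAddCommGroup V] [NormedSpace ℝ V] (K : Set V) {n : ℕ}
    (c : Fin n → ℝ) (x : Fin n → V) : Prop :=
  (∀ i, 0 < c i) ∧ ∀ i j, i ≠ j → (homothet K (c i) (x i) ∩ homothet K (c j) (x j)).Nonempty

/-- The sets `x i + c i K` (`i < n`) are positive homothets of `K`, and any two different ones of
them are tangent: they meet, and their interiors are disjoint. -/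
def Tangent {V : Type} [NormedAddCommGroup V] [NormedSpace ℝ V] (K : Set V) {n : ℕ}
    (c : Fin n → ℝ) (x : Fin n → V) : Prop :=
  (∀ i, 0 < c i) ∧ ∀ i j, i ≠ j → (homothet K (c i) (x i) ∩ homothet K (c j) (x j)).Nonempty ∧
    interior (homothet K (c i) (x i)) ∩ interior (homothet K (c j) (x j)) = ∅

/-- Colouring with `N` colours for which members with disjoint interiors get different colours. -/
def Colourable {V : Type} [NormedAddCommGroup V] [NormedSpace ℝ V] (K : Set V) {n : ℕ}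
    (c : Fin n → ℝ) (x : Fin n → V) (N : ℕ) : Prop :=
  ∃ col : Fin n → Fin N, ∀ i j, i ≠ j →
    interior (homothet K (c i) (x i)) ∩ interior (homothet K (c j) (x j)) = ∅ → col i ≠ col j

/-- Planar convex bodies. -/
def Planar {d : ℕ} (K : Set (EuclideanSpace ℝ (Fin d))) : Prop :=
  d = 2 ∧ Convex ℝ K ∧ IsCompact K ∧ (interior K).Nonempty

/-- Simplices of `ℝ^d`: convex hulls of `d + 1` affinely independent points. -/
def Simplex {d : ℕ} (K : Set (EuclideanSpace ℝ (Fin d))) : Prop :=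
  ∃ p : Fin (d + 1) → EuclideanSpace ℝ (Fin d), AffineIndependent ℝ p ∧
    K = convexHull ℝ (Set.range p)

/-- Order bodies of rooted forests: `π v` is the parent of the node `v` of a rooted forest with `d`
nodes (`none` at the roots), `lam v > 0` is the mark of `v`, the vectors `u v` form a basis of `ℝ^d`,
and the body is `{y : ⟨u (π v), y - z⟩ ≤ ⟨u v, y - z⟩ ≤ lam v for all v}`, with `0` in place of
`⟨u (π v), y - z⟩` at the roots.  The forest without edges gives the parallelotopes; the path with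
equal marks gives all simplices. -/
def OrderBody {d : ℕ} (K : Set (EuclideanSpace ℝ (Fin d))) : Prop :=
  ∃ (π : Fin d → Option (Fin d)) (lam : Fin d → ℝ) (u : Fin d → EuclideanSpace ℝ (Fin d))
    (z : EuclideanSpace ℝ (Fin d)),
    (∀ v w, π v = some w → w < v) ∧ (∀ v, 0 < lam v) ∧ LinearIndependent ℝ u ∧
    K = {y | ∀ v, (π v).elim 0 (fun w => inner ℝ (u w) (y - z)) ≤ inner ℝ (u v) (y - z) ∧
      inner ℝ (u v) (y - z) ≤ lam v}

/-- Centrally symmetric (possibly unbounded) polyhedra of `ℝ^d` cut out by at most `d + 2` slabs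
`|⟨u a, y - z⟩| ≤ 1`. -/
def SlabBody {d : ℕ} (K : Set (EuclideanSpace ℝ (Fin d))) : Prop :=
  ∃ m ≤ d + 2, ∃ (u : Fin m → EuclideanSpace ℝ (Fin d)) (z : EuclideanSpace ℝ (Fin d)),
    K = {y | ∀ a, |inner ℝ (u a) (y - z)| ≤ 1}

/-- Bodies `{y : ∑ a, |⟨u a, y - z⟩| ≤ 1}` given by at most `d` vectors `u a` (`d ≥ 2`), or by `d + 1`
vectors with a linear relation all of whose coefficients are nonzero. -/
def L1Body {d : ℕ} (K : Set (EuclideanSpace ℝ (Fin d))) : Prop :=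
  ∃ (m : ℕ) (u : Fin m → EuclideanSpace ℝ (Fin d)) (z : EuclideanSpace ℝ (Fin d)),
    K = {y | ∑ a, |inner ℝ (u a) (y - z)| ≤ 1} ∧
    (m ≤ d ∧ 2 ≤ d ∨ m = d + 1 ∧ ∃ lam : Fin m → ℝ, (∀ a, lam a ≠ 0) ∧ ∑ a, lam a • u a = 0)

/-- In the cube `[-1,1]^k`, each hyperplane `γ c · y = 1` cuts off exactly one vertex `v` (its
neighbours lie strictly on the other side), and for `c ≠ c'` the parts cut off by `|γ c · y| > 1` and
by `|γ c' · y| > 1` are disjoint. -/
def CutsVertices {k m : ℕ} (γ : Fin m → Fin k → ℝ) : Prop :=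
  (∀ c, ∃ v : Fin k → ℝ, (∀ a, v a = 1 ∨ v a = -1) ∧ 1 < ∑ a, γ c a * v a ∧
    ∀ a, ∑ a', γ c a' * Function.update v a (-v a) a' < 1) ∧
  ∀ c c', c ≠ c' → ∀ y : Fin k → ℝ, (∀ a, |y a| ≤ 1) →
    |∑ a, γ c a * y a| ≤ 1 ∨ |∑ a, γ c' a * y a| ≤ 1

/-- Truncated parallelotopes: the parallelotope `{y : |⟨u a, y - z⟩| ≤ 1}` of `ℝ^d`, `d ≥ 3`, some of
whose pairs of opposite vertices are cut off by pairs of parallel hyperplanes, any number of them. -/
def Truncated {d : ℕ} (K : Set (EuclideanSpace ℝ (Fin d))) : Prop :=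
  3 ≤ d ∧ ∃ (u : Fin d → EuclideanSpace ℝ (Fin d)) (z : EuclideanSpace ℝ (Fin d)) (m : ℕ)
    (γ : Fin m → Fin d → ℝ), CutsVertices γ ∧
    K = {y | (∀ a, |inner ℝ (u a) (y - z)| ≤ 1) ∧
      ∀ c, |∑ a, γ c a * inner ℝ (u a) (y - z)| ≤ 1}

/-- Convex bodies (not assumed symmetric) whose difference body `{p - q : p, q ∈ K}` is cut out by
at most `d + 1` slabs (some of the `u a` may be zero). -/
def DiffBody {d : ℕ} (K : Set (EuclideanSpace ℝ (Fin d))) : Prop :=
  Convex ℝ K ∧ IsCompact K ∧ (interior K).Nonempty ∧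
    ∃ u : Fin (d + 1) → EuclideanSpace ℝ (Fin d),
      ∀ y, (∃ p ∈ K, ∃ q ∈ K, p - q = y) ↔ ∀ a, |inner ℝ (u a) y| ≤ 1

/-- Ellipsoids. -/
def Ellipsoid {d : ℕ} (K : Set (EuclideanSpace ℝ (Fin d))) : Prop :=
  ∃ (A : EuclideanSpace ℝ (Fin d) ≃ₗ[ℝ] EuclideanSpace ℝ (Fin d))
    (z : EuclideanSpace ℝ (Fin d)), K = {y | ‖A (y - z)‖ ≤ 1}

/-- Double cones over centrally symmetric planar convex bodies, in `ℝ^3`: bounded sets
`{y : q (y - z) + |⟨u, y - z⟩| ≤ 1}` where the seminorm `q` vanishes at a vector `a` with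
`⟨u, a⟩ ≠ 0` (the apices are `z ± a / ⟨u, a⟩`, the base is `{y : q (y - z) ≤ 1, ⟨u, y - z⟩ = 0}`). -/
def DoubleCone {d : ℕ} (K : Set (EuclideanSpace ℝ (Fin d))) : Prop :=
  d = 3 ∧ ∃ (q : Seminorm ℝ (EuclideanSpace ℝ (Fin d))) (u a z : EuclideanSpace ℝ (Fin d)),
    q a = 0 ∧ inner ℝ u a ≠ (0 : ℝ) ∧ (∀ y, q y = 0 → inner ℝ u y = (0 : ℝ) → y = 0) ∧
    K = {y | q (y - z) + |inner ℝ u (y - z)| ≤ 1}

/-- Cones over centrally symmetric planar convex bodies, in `ℝ^3`: the halves `⟨u, y - z⟩ ≥ 0` of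
the double cones (base `{y : q (y - z) ≤ 1, ⟨u, y - z⟩ = 0}`, apex `z + a / ⟨u, a⟩`). -/
def Cone {d : ℕ} (K : Set (EuclideanSpace ℝ (Fin d))) : Prop :=
  d = 3 ∧ ∃ (q : Seminorm ℝ (EuclideanSpace ℝ (Fin d))) (u a z : EuclideanSpace ℝ (Fin d)),
    q a = 0 ∧ inner ℝ u a ≠ (0 : ℝ) ∧ (∀ y, q y = 0 → inner ℝ u y = (0 : ℝ) → y = 0) ∧
    K = {y | 0 ≤ inner ℝ u (y - z) ∧ q (y - z) + inner ℝ u (y - z) ≤ 1}

/-- The factors of products for which there are colourings. -/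
def Factor {d : ℕ} (K : Set (EuclideanSpace ℝ (Fin d))) : Prop :=
  Planar K ∨ Simplex K ∨ OrderBody K ∨ SlabBody K ∨ L1Body K ∨ Truncated K ∨ DiffBody K ∨
    DoubleCone K ∨ Cone K ∨ 6 ≤ d ∧ Ellipsoid K

lemma L1Body.colB {d : ℕ} {K : Set (EuclideanSpace ℝ (Fin d))} (h : L1Body K) :
    C1G.ColB K (2 ^ d) := by
  obtain ⟨m, u, z, rfl, ⟨hm, hd⟩ | ⟨rfl, lam, hlam, hrel⟩⟩ := h
  · have h2 : ∀ n, n + 1 ≤ d → 2 ^ n + 2 ≤ 2 ^ d := by
      intro n hn
      have h3 : 2 ^ n ≤ 2 ^ (d - 1) := Nat.pow_le_pow_right (by norm_num) (by omega)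
      have h4 : 2 ^ 1 ≤ 2 ^ (d - 1) := Nat.pow_le_pow_right (by norm_num) (by omega)
      have h5 : 2 ^ d = 2 * 2 ^ (d - 1) := by
        rw [← pow_succ', Nat.sub_add_cancel (by omega)]
      omega
    rcases Nat.eq_zero_or_pos m with rfl | hm0
    · have h1 := Pool.Agent.SimN.colB_l1 (fun _ : Fin 1 => (0 : EuclideanSpace ℝ (Fin d))) z
      have e : {y : EuclideanSpace ℝ (Fin d) | ∑ a : Fin 0, |inner ℝ (u a) (y - z)| ≤ 1} =
          Pool.Agent.SimN.l1Body (fun _ : Fin 1 => (0 : EuclideanSpace ℝ (Fin d))) z := by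
        ext y
        simp [Pool.Agent.SimN.l1Body]
      rw [e]
      exact h1.mono (h2 0 (by omega))
    · obtain ⟨n, rfl⟩ : ∃ n, m = n + 1 := ⟨m - 1, by omega⟩
      exact (Pool.Agent.SimN.colB_l1 u z).mono (h2 n hm)
  · exact Pool.Agent.SimN.colB_l1_rel u z lam hlam hrel

lemma Truncated.colB {d : ℕ} {K : Set (EuclideanSpace ℝ (Fin d))} (h : Truncated K) :
    C1G.ColB K (2 ^ d) := by
  obtain ⟨hd, u, z, m, γ, hγ, rfl⟩ := h
  exact C1H.colB_trunc hd (fun a => innerSL ℝ (u a)) γ hγ z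

lemma DoubleCone.colB {d : ℕ} {K : Set (EuclideanSpace ℝ (Fin d))} (h : DoubleCone K) :
    C1G.ColB K (2 ^ d) := by
  obtain ⟨rfl, q, u, a, z, h1, h2, h3, rfl⟩ := h
  exact DCone.colB_dcone finrank_euclideanSpace_fin q (innerSL ℝ u).toLinearMap a z h1 h2 h3

lemma Cone.colB {d : ℕ} {K : Set (EuclideanSpace ℝ (Fin d))} (h : Cone K) :
    C1G.ColB K (2 ^ d) := by
  obtain ⟨rfl, q, u, a, z, h1, h2, h3, rfl⟩ := h
  exact DCone.colB_cone q u a z h1 h2 h3

lemma Factor.colB {d : ℕ} {K : Set (EuclideanSpace ℝ (Fin d))} (h : Factor K) :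
    C1G.ColB K (2 ^ d) := by
  rcases h with ⟨rfl, h1, h2, h3⟩ | ⟨p, hp, rfl⟩ | ⟨π, lam, u, z, h1, h2, h3, rfl⟩ |
    ⟨m, hm, u, z, rfl⟩ | h | h | ⟨h1, h2, h3, u, hu⟩ | h | h | ⟨hd, A, z, rfl⟩
  · exact C1G.colB_planar K h1 h2 h3
  · exact C1G.colB_simplex p hp
  · exact SpF.colB_forest π h1 lam h2 u h3 z
  · exact C1G.colB_slab1 hm u z
  · exact h.colB
  · exact h.colB
  · exact C1N.colB_db K h1 h2 h3 u hu
  · exact h.colB
  · exact h.colB
  · exact C1B.colB_ellipsoid hd A z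

/-- **Main theorem.**  Let `K₂ ⊆ ∏ j, ℝ^(d j)` be the product of the bodies `K j`, each of which is
a `Factor` or an ellipsoid, and let `D = ∑ j, d j` be its dimension.
1. If all `K j` are `Factor`s (the ellipsoids among them have dimension at least `6`): every finite
family of pairwise intersecting positive homothets of `K₂` has a colouring with `2 ^ D` colours for
which members with disjoint interiors have different colours.
2. Every family of `n` pairwise intersecting positive homothets of `K₂` has at least `n / 2 ^ D`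
members whose interiors meet pairwise; so every pairwise tangent family has at most `2 ^ D` members.
3. If `K₁ ⊆ ℝ^f` is any set such that pairwise tangent families of positive homothets of `K₁` have at
most `N` members, then pairwise tangent families of positive homothets of `K₁ × K₂` have at most
`N * 2 ^ D` members. -/
theorem result (s : ℕ) (d : Fin s → ℕ) (K : (j : Fin s) → Set (EuclideanSpace ℝ (Fin (d j))))
    (hK : ∀ j, Factor (K j) ∨ Ellipsoid (K j)) :
    ((∀ j, Factor (K j)) →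
      ∀ (n : ℕ) (c : Fin n → ℝ) (x : Fin n → (j : Fin s) → EuclideanSpace ℝ (Fin (d j))),
        Intersecting (Set.univ.pi K) c x → Colourable (Set.univ.pi K) c x (2 ^ ∑ j, d j)) ∧
    (∀ (n : ℕ) (c : Fin n → ℝ) (x : Fin n → (j : Fin s) → EuclideanSpace ℝ (Fin (d j))),
      (Intersecting (Set.univ.pi K) c x → ∃ S : Finset (Fin n), n ≤ 2 ^ (∑ j, d j) * S.card ∧
        ∀ i ∈ S, ∀ i' ∈ S, i ≠ i' → (interior (homothet (Set.univ.pi K) (c i) (x i)) ∩
          interior (homothet (Set.univ.pi K) (c i') (x i'))).Nonempty) ∧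
      (Tangent (Set.univ.pi K) c x → n ≤ 2 ^ ∑ j, d j)) ∧
    (∀ (f N : ℕ) (K₁ : Set (EuclideanSpace ℝ (Fin f))),
      (∀ (n : ℕ) (c : Fin n → ℝ) (x : Fin n → EuclideanSpace ℝ (Fin f)),
        Tangent K₁ c x → n ≤ N) →
      ∀ (n : ℕ) (c : Fin n → ℝ)
        (x : Fin n → EuclideanSpace ℝ (Fin f) × ((j : Fin s) → EuclideanSpace ℝ (Fin (d j)))),
        Tangent (K₁ ×ˢ Set.univ.pi K) c x → n ≤ N * 2 ^ ∑ j, d j) := by
  have h := C1B.IndB.pi fun j => (hK j).elim (fun h => h.colB.ind)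
    (fun h => by obtain ⟨A, z, e⟩ := h; rw [e]; exact C1B.ind_ellipsoid_all A z)
  rw [Finset.prod_pow_eq_pow_sum] at h
  refine ⟨fun hF n c x hx => ?_, fun n c x => ⟨fun hx => h n c x hx.1 hx.2,
    fun hx => h.tangent hx.1 hx.2⟩,
    fun f N K₁ hK₁ n c x hx => h.mul (fun n c x hc hx => hK₁ n c x ⟨hc, hx⟩) hx.1 hx.2⟩
  have hc := C1G.ColB.pi fun j => (hF j).colB
  rw [Finset.prod_pow_eq_pow_sum] at hc
  exact hc n c x hx.1 hx.2

end Pool.Agent.Results.MP_c1e66d_co.Products
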