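import Pool.Agent.Hom3.MainE
import Pool.Agent.Hom3.AllK

/-!
# Pairwise tangent positive homothets of a convex body

`K` is a convex set with interior in `ℝ^d` with `o - (y - o) / ν ∈ K` for all `y ∈ K` (`ν = 1`:
symmetric about `o`; every convex body has such a centre with `ν = d`, by Minkowski), and
`x i + c i K` (`i < n`) are pairwise tangent, with smallest ratio `a` and largest ratio `b`.
Lift the member `x + c K` to the point `(x / c, 1 / c)` of `ℝ^(d+1)`; these points lie in a convex
body `P` with `-P / ν ⊆ P` and are pairwise antipodal in `P`; the half-size copies of `P` at these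
points are packed in `P`, and one compares the sections at the height `1 / b` (Brunn-Minkowski).
For the first clause the section inequalities are integrated over the positive heights, and a cap of
`P` is bounded below by halving `P` at its median height.
-/

set_option autoImplicit false

open Set

namespace Pool.Agent.Results.MP_c1e66d_co.RatioThree

open Pool.Agent.Hom3

private theorem wt_nonneg {R r ν : ℝ} (hν : 1 ≤ ν) : 0 ≤ wt ν R r := by
  unfold wt
  split_ifs with h
  · have hν0 : 0 < ν := by linarith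
    have h1 : (r - 1) * (ν - 1) / (ν + 1) ≤ 1 := by
      rw [div_le_one (by linarith)]
      have h2 : (r - 1) * (ν - 1) ≤ (1 + 1 / ν) * (ν - 1) :=
        mul_le_mul_of_nonneg_right (by linarith) (by linarith)
      have h3 : (1 + 1 / ν) * (ν - 1) = ν - 1 / ν := by field_simp; ring
      have h4 : 0 < 1 / ν := by positivity
      linarith
    linarith
  · exact le_max_left _ _

theorem result (d n : ℕ) (hd : 1 ≤ d) (K : Set (EuclideanSpace ℝ (Fin d))) (hK : Convex ℝ K)
    (hKi : (interior K).Nonempty) (o : EuclideanSpace ℝ (Fin d)) (ν : ℝ) (hν : 1 ≤ ν)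
    (hKν : ∀ y ∈ K, o - (1 / ν) • (y - o) ∈ K)
    (c : Fin n → ℝ) (x : Fin n → EuclideanSpace ℝ (Fin d)) (hT : Tangent K c x) (a b : ℝ)
    (ha : ∀ i, a ≤ c i) (hb : ∀ i, c i ≤ b) (hamem : ∃ i, c i = a) (hbmem : ∃ i, c i = b) :
    (n : ℝ) ≤ 2 ^ (d + 1) - 4 ^ d / (1 + ν) ^ (d + 1) ∧
    (∑ i, wt ν (b / a) (b / c i) ^ d ≤ 2 ^ d) ∧
    (b ≤ (2 + 1 / ν) * a → (n : ℝ) * (1 - (b / a - 1) * (ν - 1) / (ν + 1)) ^ d ≤ 2 ^ d) ∧
    (ν = 1 → (Finset.univ.filter fun i => b ≤ 3 * c i).card ≤ 2 ^ d) ∧
    (ν = 1 → (n : ℝ) ≤ 2 ^ d * (3 / 2 - a / (2 * b))) := by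
  obtain ⟨h1, h2⟩ := main_E hd hK hKi hν hKν hT ha hb hamem hbmem
  have hc : ∀ i, 0 < c i := hT.1
  have ha0 : 0 < a := by
    obtain ⟨i, hi⟩ := hamem
    exact hi ▸ hc i
  have hb0 : 0 < b := by
    obtain ⟨i, hi⟩ := hbmem
    exact hi ▸ hc i
  have hν0 : 0 < ν := by linarith
  refine ⟨nu_E hK hKi hν hKν hT, h1, ?_, ?_, h2⟩
  · intro hab
    have hR : b / a ≤ 2 + 1 / ν := by rwa [div_le_iff₀ ha0]
    have hw : ∀ i, (1 - (b / a - 1) * (ν - 1) / (ν + 1)) ^ d ≤ wt ν (b / a) (b / c i) ^ d := by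
      intro i
      have hr : b / c i ≤ b / a := div_le_div_of_nonneg_left hb0.le ha0 (ha i)
      have h3 : wt ν (b / a) (b / c i) = 1 - (b / c i - 1) * (ν - 1) / (ν + 1) := by
        unfold wt
        rw [if_pos (hr.trans hR)]
      have h4 : 0 ≤ 1 - (b / a - 1) * (ν - 1) / (ν + 1) := by
        have h5 : wt ν (b / a) (b / a) = 1 - (b / a - 1) * (ν - 1) / (ν + 1) := by
          unfold wt
          rw [if_pos hR]
        rw [← h5]
        exact wt_nonneg hν
      rw [h3]
      refine pow_le_pow_left₀ h4 ?_ d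
      have h6 : (b / c i - 1) * (ν - 1) / (ν + 1) ≤ (b / a - 1) * (ν - 1) / (ν + 1) := by
        refine div_le_div_of_nonneg_right ?_ (by linarith)
        exact mul_le_mul_of_nonneg_right (by linarith) (by linarith)
      linarith
    calc (n : ℝ) * (1 - (b / a - 1) * (ν - 1) / (ν + 1)) ^ d
        = ∑ _i : Fin n, (1 - (b / a - 1) * (ν - 1) / (ν + 1)) ^ d := by
          rw [Finset.sum_const, Finset.card_univ, Fintype.card_fin, nsmul_eq_mul]
      _ ≤ ∑ i, wt ν (b / a) (b / c i) ^ d := Finset.sum_le_sum fun i _ => hw i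
      _ ≤ 2 ^ d := h1
  · intro hν1
    subst hν1
    have h3 : ((Finset.univ.filter fun i => b ≤ 3 * c i).card : ℝ) ≤
        ∑ i, wt 1 (b / a) (b / c i) ^ d := by
      rw [Finset.card_eq_sum_ones, Nat.cast_sum, Finset.sum_filter]
      refine Finset.sum_le_sum fun i _ => ?_
      split_ifs with hi
      · have h4 : b / c i ≤ 2 + 1 / 1 := by
          rw [div_le_iff₀ (hc i)]; linarith
        have h5 : wt 1 (b / a) (b / c i) = 1 := by
          unfold wt
          rw [if_pos h4]; ring
        rw [h5]; simp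
      · exact pow_nonneg (wt_nonneg le_rfl) d
    have h4 := h3.trans h1
    exact_mod_cast h4

end Pool.Agent.Results.MP_c1e66d_co.RatioThree
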