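import Pool.Agent.Sym3.Slab
import Pool.Agent.SY3.Final
import Pool.Agent.SY8.Final
import Pool.Agent.E8K.Sep
import Pool.Agent.E8K.SmoothSeven
import Pool.Agent.E8K.SmoothEight
import Pool.Agent.E8K.SmoothStrict
import Pool.Agent.E8K.Sharp

/-!
# Pairwise tangent positive homothets of a centrally symmetric body of `ℝ³`
-/

set_option autoImplicit false

namespace Pool.Agent.Results.MP_c1e66d_co.SymmetricThree

/-- The Euclidean space `ℝ^d`. -/
abbrev E (d : ℕ) : Type := EuclideanSpace ℝ (Fin d)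

/-- The homothet `x + c K` of `K`. -/
def homothet {d : ℕ} (K : Set (E d)) (c : ℝ) (x : E d) : Set (E d) := (fun y => x + c • y) '' K

/-- The sets `x i + c i K` (`i < n`) are positive homothets of `K`, and any two different ones of
them are tangent: they meet, and their interiors are disjoint. -/
def Tangent {d : ℕ} (K : Set (E d)) {n : ℕ} (c : Fin n → ℝ) (x : Fin n → E d) : Prop :=
  (∀ i, 0 < c i) ∧ ∀ i j, i ≠ j → (homothet K (c i) (x i) ∩ homothet K (c j) (x j)).Nonempty ∧
    interior (homothet K (c i) (x i)) ∩ interior (homothet K (c j) (x j)) = ∅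

/-- Pairwise tangent families of positive homothets of `K` have at most `m` members. -/
def AtMost {d : ℕ} (K : Set (E d)) (m : ℕ) : Prop :=
  ∀ (n : ℕ) (c : Fin n → ℝ) (x : Fin n → E d), Tangent K c x → n ≤ m

/-- `K` is a convex body of `ℝ³`, centrally symmetric about `z`. -/
def Body3 (K : Set (E 3)) (z : E 3) : Prop :=
  Convex ℝ K ∧ IsCompact K ∧ (interior K).Nonempty ∧ ∀ y ∈ K, z + z - y ∈ K

/-- The set `S` lies above the plane `{y : ⟨u, y⟩ = r}` and meets it. -/
def Above (u : E 3) (r : ℝ) (S : Set (E 3)) : Prop :=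
  (∀ y ∈ S, r ≤ inner ℝ u y) ∧ ∃ y ∈ S, inner ℝ u y = r

/-- The set `S` lies below the plane `{y : ⟨u, y⟩ = r}` and meets it. -/
def Below (u : E 3) (r : ℝ) (S : Set (E 3)) : Prop :=
  (∀ y ∈ S, inner ℝ u y ≤ r) ∧ ∃ y ∈ S, inner ℝ u y = r

/-- The plane `{y : ⟨u, y⟩ = r}` supports four members from one side and three others from the
other side. -/
def FourThree (K : Set (E 3)) {n : ℕ} (c : Fin n → ℝ) (x : Fin n → E 3) (u : E 3) (r : ℝ) : Prop :=
  ∃ A B : Finset (Fin n), A.card = 4 ∧ B.card = 3 ∧ Disjoint A B ∧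
    ((∀ k ∈ A, Above u r (homothet K (c k) (x k))) ∧
        (∀ k ∈ B, Below u r (homothet K (c k) (x k))) ∨
      (∀ k ∈ A, Below u r (homothet K (c k) (x k))) ∧
        ∀ k ∈ B, Above u r (homothet K (c k) (x k)))

/-- For all `i ≠ j` the plane `{y : ⟨u i j, y⟩ = r i j}` separates the members `i` and `j`. -/
def Separates (K : Set (E 3)) {n : ℕ} (c : Fin n → ℝ) (x : Fin n → E 3)
    (u : Fin n → Fin n → E 3) (r : Fin n → Fin n → ℝ) : Prop :=
  ∀ i j, i ≠ j → u i j ≠ 0 ∧ (∀ y ∈ homothet K (c i) (x i), r i j ≤ inner ℝ (u i j) y) ∧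
    ∀ y ∈ homothet K (c j) (x j), inner ℝ (u i j) y ≤ r i j

/-- No plane supports all members together. -/
def NoCommonPlane (K : Set (E 3)) {n : ℕ} (c : Fin n → ℝ) (x : Fin n → E 3) : Prop :=
  ∀ (u : E 3) (r : ℝ), u ≠ 0 → ∃ k, ¬ Above u r (homothet K (c k) (x k)) ∧
    ¬ Below u r (homothet K (c k) (x k))

/-- The exposed face of `K` in the direction `u`: the points of `K` at which `⟨u, ·⟩` is maximal. -/
def face (K : Set (E 3)) (u : E 3) : Set (E 3) := {y | y ∈ K ∧ ∀ w ∈ K, inner ℝ u w ≤ inner ℝ u y}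

/-- The face in the direction `u` is a simplex: the convex hull of affinely independent points. -/
def SimplexFace (K : Set (E 3)) (u : E 3) : Prop :=
  ∃ (k : ℕ) (b : Fin k → E 3), AffineIndependent ℝ b ∧ face K u = convexHull ℝ (Set.range b)

/-- The face in the direction `u` is centrally symmetric. -/
def SymFace (K : Set (E 3)) (u : E 3) : Prop := ∃ a, ∀ y ∈ face K u, a + a - y ∈ face K u

/-- `K` is smooth: two vectors `u`, `v` whose faces have a common point are on one ray. -/
def Smooth (K : Set (E 3)) : Prop := ∀ y u v, y ∈ face K u → y ∈ face K v → SameRay ℝ u v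

/-- Every exposed face of `K` is a simplex (a point, a segment or a triangle), or `K` is smooth and
every exposed face of `K` is a simplex or centrally symmetric. -/
def Tame (K : Set (E 3)) : Prop :=
  (∀ u : E 3, u ≠ 0 → SimplexFace K u) ∨
    Smooth K ∧ ∀ u : E 3, u ≠ 0 → SimplexFace K u ∨ SymFace K u

/-- The set of the `y ∈ ℝ^d` with `|f l y| ≤ 1` for all `l < s` and `A y ∈ K`. -/
def cutCylinder {d s : ℕ} (f : Fin s → E d →ₗ[ℝ] ℝ) (A : E d →ₗ[ℝ] E 3) (K : Set (E 3)) :
    Set (E d) := {y | (∀ l, |f l y| ≤ 1) ∧ A y ∈ K}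

/-- **Main theorem.**  (1) Pairwise tangent families of positive homothets of a centrally symmetric
convex body `K` of `ℝ³` have at most `8` members.  If there are `8` members, then some plane
supports four of them from one side and three others from the other side; moreover, however one
chooses for every two members a plane which separates them, one of the chosen planes does this.
There are at most `7` members if every exposed face of `K` is a simplex, in particular if `K` is
strictly convex, or if `K` is smooth and every exposed face is a simplex or centrally symmetric.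
(2) Some convex body `K = -K` of `ℝ³` has eight pairwise tangent positive homothets which no plane
supports together.  Some smooth convex body `K = -K` of `ℝ³` has eight, and some smooth strictly
convex body `K = -K` of `ℝ³` has seven pairwise tangent positive homothets.
(3) Let `K = -K` be a convex body of `ℝ³`, let `A : ℝ^d → ℝ³` be linear and let `f l` (`l < s`) be
linear forms on `ℝ^d`.  Pairwise tangent families of positive homothets of the set of the `y ∈ ℝ^d`
with `|f l y| ≤ 1` (`l < s`) and `A y ∈ K` have at most `2^s * 8` members, and at most `2^s * 7`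
members if the faces of `K` are as in the last clause of (1). -/
theorem result :
    (∀ (K : Set (E 3)) (z : E 3), Body3 K z →
      AtMost K 8 ∧
      (∀ (c : Fin 8 → ℝ) (x : Fin 8 → E 3), Tangent K c x →
        (∃ (u : E 3) (r : ℝ), u ≠ 0 ∧ FourThree K c x u r) ∧
        ∀ u r, Separates K c x u r → ∃ i j, i ≠ j ∧ FourThree K c x (u i j) (r i j)) ∧
      (Tame K → AtMost K 7) ∧ (StrictConvex ℝ K → Tame K)) ∧
    (∃ (K : Set (E 3)) (c : Fin 8 → ℝ) (x : Fin 8 → E 3),
      Body3 K 0 ∧ Tangent K c x ∧ NoCommonPlane K c x) ∧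
    (∃ (K : Set (E 3)) (c : Fin 8 → ℝ) (x : Fin 8 → E 3),
      Smooth K ∧ Body3 K 0 ∧ Tangent K c x) ∧
    (∃ (K : Set (E 3)) (c : Fin 7 → ℝ) (x : Fin 7 → E 3),
      StrictConvex ℝ K ∧ Smooth K ∧ Body3 K 0 ∧ Tangent K c x) ∧
    ∀ (K : Set (E 3)), Body3 K 0 →
      ∀ (d s : ℕ) (f : Fin s → E d →ₗ[ℝ] ℝ) (A : E d →ₗ[ℝ] E 3),
        AtMost (cutCylinder f A K) (2 ^ s * 8) ∧
        (Tame K → AtMost (cutCylinder f A K) (2 ^ s * 7)) := by
  have h8 : ∀ (K : Set (E 3)) (z : E 3), Body3 K z → AtMost K 8 := by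
    rintro K z ⟨hK, hKc, hKi, hz⟩ n c x hx
    exact SY3.final_le_eight _ (C1S.exists_clique hK hKc hKi hz hx.1 hx.2).1
  have h7 : ∀ (K : Set (E 3)) (z : E 3), Body3 K z → Tame K → AtMost K 7 := by
    rintro K z ⟨hK, hKc, hKi, hz⟩ h n c x hx
    rcases h with h | ⟨hs, h⟩
    · exact E8K.seven_of_cert SY8.cert hK hKc hKi hz h hx.1 hx.2
    · exact E8K.seven_of_smooth SY8.cert hK hKc hKi hz hs h hx.1 hx.2
  refine ⟨fun K z hK => ⟨h8 K z hK, fun c x hx => ⟨?_, fun u r h => ?_⟩, h7 K z hK,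
    fun hs => Or.inl fun u hu => ?_⟩, ?_, ?_, ?_, ?_⟩
  · obtain ⟨u, r, hu, A, B, hA, hB, hAB, h1, h2⟩ :=
      E8K.plane_of_cert SY8.cert hK.1 hK.2.1 hK.2.2.1 hK.2.2.2 hx.1 hx.2
    exact ⟨u, r, hu, A, B, hA, hB, hAB, Or.inl ⟨h1, h2⟩⟩
  · exact E8K.planes_of_cert SY8.cert hK.2.1 hK.2.2.1 hK.2.2.2 hx.1
      (fun i j hij => (hx.2 i j hij).1) h
  · exact E8K.simplexFace_of_strictConvex hs hK.2.1 (hK.2.2.1.mono interior_subset) hu
  · obtain ⟨K, c, x, h1, h2, h3, h4, h5, h6, h7⟩ := E8K.no_common_plane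
    exact ⟨K, c, x, ⟨h1, h2, h3, fun y hy => by simpa using h4 y hy⟩, ⟨h5, h6⟩, h7⟩
  · obtain ⟨K, c, x, h1, h2, h3, h4, h5, h6, h7⟩ := E8K.smooth_eight_example
    exact ⟨K, c, x, h5, ⟨h1, h2, h3, fun y hy => by simpa using h4 y hy⟩, h6, h7⟩
  · obtain ⟨K, c, x, h1, h2, h3, h4, h5, h6, h7⟩ := E8K.smooth_strict_seven_example
    exact ⟨K, c, x, h1, h5, ⟨h1.convex, h2, h3, fun y hy => by simpa using h4 y hy⟩, h6, h7⟩
  · intro K hK d s f A
    have hs : ∀ y ∈ K, -y ∈ K := fun y hy => by simpa using hK.2.2.2 y hy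
    refine ⟨fun n c x hx => ?_, fun hc n c x hx => ?_⟩
    · exact Pool.Agent.Sym3.slab_bound hK.1 hs (h8 K 0 hK) f A c x hx
    · exact Pool.Agent.Sym3.slab_bound hK.1 hs (h7 K 0 hK hc) f A c x hx

end Pool.Agent.Results.MP_c1e66d_co.SymmetricThree
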