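import Pool.Agent.Typ.Main
import Pool.Agent.Typ.Norm
import Pool.Agent.Typ.Smooth
import Pool.Agent.Typ.Res
import Pool.Agent.Typ.SymB

/-!
# Pairwise tangent positive homothets of a typical convex body

The space `ConvexBody (EuclideanSpace ℝ (Fin d))` of nonempty compact convex sets of `ℝ^d`, with
the Hausdorff metric, is complete.  All its members outside a meagre set have nonempty interior,
and their pairwise tangent families of positive homothets have at most `2 d + 2` members.  The same
holds in the space of the centrally symmetric bodies.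
-/

set_option autoImplicit false

open Set Metric Topology Filter

namespace Pool.Agent.Results.MP_c1e66d_co.Typical

/-- The sets `x i + c i K` (`i < n`) are positive homothets of `K` and pairwise tangent. -/
def Tangent {d : ℕ} (K : Set (EuclideanSpace ℝ (Fin d))) {n : ℕ} (c : Fin n → ℝ)
    (x : Fin n → EuclideanSpace ℝ (Fin d)) : Prop :=
  (∀ i, 0 < c i) ∧ ∀ i j, i ≠ j →
    ((fun y => x i + c i • y) '' K ∩ (fun y => x j + c j • y) '' K).Nonempty ∧
    interior ((fun y => x i + c i • y) '' K) ∩ interior ((fun y => x j + c j • y) '' K) = ∅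

/-- The convex bodies of `ℝ^d` in the sense of Mathlib: nonempty compact convex sets, with the
Hausdorff metric. -/
abbrev Body (d : ℕ) : Type := ConvexBody (EuclideanSpace ℝ (Fin d))

/-- The bodies with `K = - K`, as a subspace. -/
abbrev SymBody (d : ℕ) : Type := {K : Body d // ∀ y ∈ K, -y ∈ K}

/-- `K` has interior, and its pairwise tangent families have at most `2 d + 2` members. -/
def Good {d : ℕ} (K : Body d) : Prop :=
  (interior (K : Set (EuclideanSpace ℝ (Fin d)))).Nonempty ∧
  ∀ (n : ℕ) (c : Fin n → ℝ) (x : Fin n → EuclideanSpace ℝ (Fin d)),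
    Tangent (K : Set (EuclideanSpace ℝ (Fin d))) c x → n ≤ 2 * d + 2

/-- `P` holds for all points outside a meagre set, and on a dense set. -/
def Typically {X : Type} [TopologicalSpace X] (P : X → Prop) : Prop :=
  IsMeagre {x : X | ¬ P x} ∧ Dense {x : X | P x}

private theorem good_of {d : ℕ} (K : ConvexBody (EuclideanSpace ℝ (Fin d)))
    (hK : (interior (K : Set (EuclideanSpace ℝ (Fin d)))).Nonempty)
    (H : ¬ ∃ (m : ℕ) (q : Fin (2 * d + 2) → EuclideanSpace ℝ (Fin d) × ℝ)
      (w : Fin (2 * d + 2 + 1) → Fin (2 * d + 2 + 1) → EuclideanSpace ℝ (Fin d)),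
        Typ.Clq (m : ℝ) K q w) : Good K := by
  refine ⟨hK, fun n c x hT => ?_⟩
  by_contra hn
  push Not at hn
  have hle : 2 * d + 2 + 1 ≤ n := hn
  apply H
  obtain ⟨m, q, w, hC⟩ := Typ.exists_clq K hK (2 * d + 2) (fun i => x (Fin.castLE hle i))
    (fun i => c (Fin.castLE hle i)) (fun i => hT.1 _) (by
      intro i j hij
      have hne : Fin.castLE hle i ≠ Fin.castLE hle j := fun h =>
        hij (Fin.castLE_injective hle h)
      obtain ⟨h1, h2⟩ := hT.2 _ _ hne
      exact ⟨h1, Set.disjoint_iff_inter_eq_empty.2 h2⟩)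
  exact ⟨m, q, w, hC⟩

/-- For typical convex bodies, and for typical centrally symmetric convex bodies, pairwise tangent
families of positive homothets have at most `2 d + 2` members. -/
theorem result (d : ℕ) :
    Typically (fun K : Body d => Good K) ∧ Typically (fun K : SymBody d => Good K.1) := by
  have hn : 2 * Module.finrank ℝ (EuclideanSpace ℝ (Fin d)) + 2 ≤ 2 * d + 2 := by simp
  have : CompleteSpace (ConvexBody (EuclideanSpace ℝ (Fin d))) := Typ.completeSpace_convexBody
  have dense_step : ∀ (m : ℕ) (K : ConvexBody (EuclideanSpace ℝ (Fin d))) (ε : ℝ), 0 < ε →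
      ∃ K' : ConvexBody (EuclideanSpace ℝ (Fin d)), dist K' K < ε ∧
        ((∀ y ∈ K, -y ∈ K) → ∀ y ∈ K', -y ∈ K') ∧
        ¬ ∃ (q : Fin (2 * d + 2) → EuclideanSpace ℝ (Fin d) × ℝ)
          (w : Fin (2 * d + 2 + 1) → Fin (2 * d + 2 + 1) → EuclideanSpace ℝ (Fin d)),
          Typ.Clq (m : ℝ) K' q w := by
    intro m K ε hε
    obtain ⟨K0, h1, h2, h3, h4⟩ := Typ.exists_SC_sym K (ε := ε / 2) (by positivity)
    obtain ⟨K', h5, h6, h7⟩ := Typ.no_clique_near K0 h2 h3 hn m (ρ := ε / 2) (by positivity)
    refine ⟨K', ?_, fun hs => h6 (h4 hs), h7⟩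
    calc dist K' K ≤ dist K' K0 + dist K0 K := dist_triangle _ _ _
      _ < ε := by linarith
  have m1 : ∀ᶠ K : ConvexBody (EuclideanSpace ℝ (Fin d)) in
      residual (ConvexBody (EuclideanSpace ℝ (Fin d))),
      Good K := by
    have e1 := Typ.residual_bodies (V := EuclideanSpace ℝ (Fin d)) (n := 2 * d + 2)
      (fun m K ε hε => by
        obtain ⟨K', h1, -, h2⟩ := dense_step m K ε hε
        exact ⟨K', h1, h2⟩)
    have e2 : ∀ᶠ K : ConvexBody (EuclideanSpace ℝ (Fin d)) in
        residual (ConvexBody (EuclideanSpace ℝ (Fin d))),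
        (interior (K : Set (EuclideanSpace ℝ (Fin d)))).Nonempty := by
      have := Typ.degenerate_meagre (V := EuclideanSpace ℝ (Fin d))
      rw [IsMeagre] at this
      filter_upwards [this] with K hK
      simpa using hK
    filter_upwards [e1, e2] with K h1 h2
    exact good_of K h2 h1
  have m2 : ∀ᶠ K : {K : ConvexBody (EuclideanSpace ℝ (Fin d)) // ∀ y ∈ K, -y ∈ K} in
      residual {K : ConvexBody (EuclideanSpace ℝ (Fin d)) // ∀ y ∈ K, -y ∈ K},
      Good (K : ConvexBody (EuclideanSpace ℝ (Fin d))) := by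
    have e1 := Typ.residual_subtype (V := EuclideanSpace ℝ (Fin d)) (n := 2 * d + 2)
      (Typ.Sy (EuclideanSpace ℝ (Fin d)))
      (fun m K hK ε hε => by
        obtain ⟨K', h1, h3, h2⟩ := dense_step m K ε hε
        exact ⟨K', h3 hK, h1, h2⟩)
    have e2 : ∀ᶠ K : Typ.Sy (EuclideanSpace ℝ (Fin d)) in
        residual (Typ.Sy (EuclideanSpace ℝ (Fin d))),
        (interior ((K : ConvexBody (EuclideanSpace ℝ (Fin d))) :
          Set (EuclideanSpace ℝ (Fin d)))).Nonempty := by
      have := Typ.degenerate_meagre_Sy (V := EuclideanSpace ℝ (Fin d))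
      rw [IsMeagre] at this
      filter_upwards [this] with K hK
      simpa using hK
    filter_upwards [e1, e2] with K h1 h2
    exact good_of _ h2 h1
  have hcs : CompleteSpace {K : ConvexBody (EuclideanSpace ℝ (Fin d)) // ∀ y ∈ K, -y ∈ K} :=
    (Typ.isClosed_Sy (V := EuclideanSpace ℝ (Fin d))).completeSpace_coe
  refine ⟨⟨?_, dense_of_mem_residual m1⟩, ⟨?_, dense_of_mem_residual m2⟩⟩
  · rw [IsMeagre]
    filter_upwards [m1] with K hK
    simpa using hK
  · rw [IsMeagre]
    filter_upwards [m2] with K hK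
    simpa using hK

end Pool.Agent.Results.MP_c1e66d_co.Typical
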